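import Pool.Agent.Q272.Cum.Final

/-!
For every `η > 1` there is a strictly increasing sequence of positive integers with
`a_{k+1} / a_k → η` whose cosine sums have the cumulant asymptotics of the independent model.
-/

namespace Pool.Agent.Results.MP_5c394f_nt.EveryRatio

open Filter Topology

/-- `S_n(ω) = ∑_{k=1}^n cos(2π a_k ω)`. -/
noncomputable def S (a : ℕ → ℕ) (n : ℕ) (ω : ℝ) : ℝ :=
  ∑ k ∈ Finset.Icc 1 n, Real.cos (2 * Real.pi * a k * ω)

/-- The `m`-th cumulant of a random variable on `[0,1]` with Lebesgue measure: the `m`-th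
derivative at `0` of `t ↦ log E[exp (t X)]`. -/
noncomputable def cumulant (m : ℕ) (X : ℝ → ℝ) : ℝ :=
  iteratedDeriv m (fun t : ℝ => Real.log (∫ ω in Set.Icc (0:ℝ) 1, Real.exp (t * X ω))) 0

/-- `I_0(t) = ∑_j (t/2)^{2j} / (j!)^2`, the moment generating function of the arcsine law. -/
noncomputable def I0 (t : ℝ) : ℝ := ∑' j : ℕ, (t / 2) ^ (2 * j) / ((j.factorial : ℝ)) ^ 2

/-- `κ̃_m`: the `m`-th derivative at `0` of `log I_0`. -/
noncomputable def kappaTilde (m : ℕ) : ℝ := iteratedDeriv m (fun t : ℝ => Real.log (I0 t)) 0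

/-- For every real `η > 1` there is a strictly increasing sequence `(a_k)_{k ≥ 1}` of positive
integers with `a_{k+1} / a_k → η` such that for every `m ≥ 1` the difference
`κ_m(S_n) - n κ̃_m` is eventually constant, and hence `κ_m(S_n) / n → κ̃_m`. -/
theorem result : ∀ η : ℝ, 1 < η → ∃ a : ℕ → ℕ,
    (∀ k, 1 ≤ k → 0 < a k ∧ a k < a (k + 1)) ∧
    Tendsto (fun k : ℕ => (a (k + 1) : ℝ) / a k) atTop (𝓝 η) ∧
    ∀ m : ℕ, 1 ≤ m →
      (∃ C : ℝ, ∀ᶠ n : ℕ in atTop, cumulant m (S a n) = n * kappaTilde m + C) ∧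
      Tendsto (fun n : ℕ => cumulant m (S a n) / n) atTop (𝓝 (kappaTilde m)) := by
  intro η hη
  set a : ℕ → ℕ := fun k => Q272.Cum.b hη (k - 1) with ha
  have hS : ∀ n, S a n = Q272.Cum.Sn hη n := by
    intro n
    funext ω
    unfold S Q272.Cum.Sn Q272.Cum.cr
    rw [Finset.range_eq_Ico, ← Finset.Ico_add_one_right_eq_Icc, Finset.sum_Ico_eq_sum_range,
      Finset.sum_Ico_eq_sum_range]
    simp only [Nat.add_sub_cancel, Nat.sub_zero]
    refine Finset.sum_congr rfl fun k _ => ?_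
    simp only [ha, zero_add, Nat.add_sub_cancel_left]
  have hcum : ∀ m n, cumulant m (S a n) =
      iteratedDeriv m (ProbabilityTheory.cgf (Q272.Cum.Sn hη n) Q272.Cum.μ) 0 := by
    intro m n
    rw [hS]
    rfl
  have hk : ∀ m, kappaTilde m = Q272.Cum.kt m := fun m => rfl
  refine ⟨a, ?_, ?_, ?_⟩
  · intro k hk
    obtain ⟨j, rfl⟩ : ∃ j, k = j + 1 := ⟨k - 1, by omega⟩
    simp only [ha, Nat.add_sub_cancel]
    exact ⟨Q272.Cum.b_pos hη j, Q272.Cum.b_lt hη j⟩
  · rw [← tendsto_add_atTop_iff_nat 1]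
    simp only [ha, Nat.add_sub_cancel]
    exact Q272.Cum.ratio_tendsto hη
  · intro m _
    obtain ⟨N, C, hN⟩ := Q272.Cum.cumulant_eventually hη m
    have hev : ∀ᶠ n : ℕ in atTop, cumulant m (S a n) = n * kappaTilde m + C := by
      filter_upwards [eventually_ge_atTop N] with n hn
      rw [hcum, hk]
      exact hN n hn
    refine ⟨⟨C, hev⟩, ?_⟩
    have h1 : Tendsto (fun n : ℕ => kappaTilde m + C * ((n : ℝ))⁻¹) atTop
        (𝓝 (kappaTilde m + C * 0)) :=
      (tendsto_inv_atTop_nhds_zero_nat.const_mul C).const_add _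
    rw [mul_zero, add_zero] at h1
    refine h1.congr' ?_
    filter_upwards [hev, eventually_gt_atTop 0] with n hn hn0
    rw [hn]
    have : (n : ℝ) ≠ 0 := by exact_mod_cast hn0.ne'
    field_simp

end Pool.Agent.Results.MP_5c394f_nt.EveryRatio
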